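import Mathlib

set_option autoImplicit false

namespace Pool.Agent.Results.MP_71954f_co.MooreBound

variable {V : Type*} [DecidableEq V]

/-- `l` is the list of interior vertices of a path from `u` to `v`. -/
def Pth (R : V → V → Prop) (u v : V) (l : List V) : Prop :=
  (u :: (l ++ [v])).Nodup ∧ (u :: (l ++ [v])).IsChain R

omit [DecidableEq V] in
theorem Pth.split {R : V → V → Prop} {u v w : V} {s t : List V} (h : Pth R u v (s ++ w :: t)) :
    Pth R u w s ∧ Pth R w v t := by
  obtain ⟨h1, h2⟩ := h
  have e : u :: (s ++ w :: t ++ [v]) = u :: (s ++ w :: (t ++ [v])) := by simp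
  rw [e] at h1 h2
  rw [List.isChain_cons_split] at h2
  refine ⟨⟨?_, h2.1⟩, ⟨?_, h2.2⟩⟩
  · refine h1.sublist ?_
    simp
  · refine h1.sublist ?_
    have : w :: (t ++ [v]) = [] ++ (w :: (t ++ [v])) := rfl
    refine List.Sublist.cons _ ?_
    exact List.sublist_append_right s _

omit [DecidableEq V] in
theorem Pth.join {R : V → V → Prop} {u v w : V} {s t : List V} (h1 : Pth R u w s)
    (h2 : Pth R w v t) (hd : ∀ z ∈ s, z ∉ t ∧ z ≠ v) (hu : u ≠ v) (hut : u ∉ t) :
    Pth R u v (s ++ w :: t) := by
  obtain ⟨a1, a2⟩ := h1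
  obtain ⟨b1, b2⟩ := h2
  have e : u :: (s ++ w :: t ++ [v]) = u :: (s ++ w :: (t ++ [v])) := by simp
  refine ⟨?_, ?_⟩
  · rw [e]
    simp only [List.nodup_cons, List.mem_append, List.mem_cons, List.nodup_append,
      List.not_mem_nil, or_false, not_or] at a1 b1 ⊢
    grind
  · rw [e, List.isChain_cons_split]; exact ⟨a2, b2⟩

omit [DecidableEq V] in
theorem Pth.ne {R : V → V → Prop} {u v : V} {l : List V} (h : Pth R u v l) : u ≠ v := by
  obtain ⟨h1, _⟩ := h
  simp only [List.nodup_cons, List.mem_append, List.mem_cons, List.not_mem_nil, or_false,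
    not_or] at h1
  exact h1.1.2

omit [DecidableEq V] in
theorem Pth.not_mem_left {R : V → V → Prop} {u v : V} {l : List V} (h : Pth R u v l) : u ∉ l := by
  obtain ⟨h1, _⟩ := h
  simp only [List.nodup_cons, List.mem_append, List.mem_cons, List.not_mem_nil, or_false,
    not_or] at h1
  exact h1.1.1

omit [DecidableEq V] in
theorem Pth.not_mem_right {R : V → V → Prop} {u v : V} {l : List V} (h : Pth R u v l) : v ∉ l := by
  obtain ⟨h1, _⟩ := h
  simp only [List.nodup_cons, List.nodup_append, List.mem_cons] at h1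
  intro hv
  exact h1.2.2.2 v hv v (by simp) rfl

omit [DecidableEq V] in
theorem Pth.nodup {R : V → V → Prop} {u v : V} {l : List V} (h : Pth R u v l) : l.Nodup := by
  obtain ⟨h1, _⟩ := h
  simp only [List.nodup_cons, List.nodup_append, List.mem_cons] at h1
  exact h1.2.1

omit [DecidableEq V] in
theorem pth_nil {R : V → V → Prop} {u v : V} (hR : R u v) (h : u ≠ v) : Pth R u v [] := by
  refine ⟨by simp [h], by simp [hR]⟩

omit [DecidableEq V] in
theorem Pth.rel {R : V → V → Prop} {u v : V} (h : Pth R u v []) : R u v := by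
  have := h.2; simpa using this

omit [DecidableEq V] in
theorem Pth.mono {R S : V → V → Prop} {u v : V} {l : List V} (h : Pth R u v l)
    (hRS : ∀ a b, R a b → S a b) : Pth S u v l :=
  ⟨h.1, h.2.imp hRS⟩

omit [DecidableEq V] in
/-- the first relation on a path -/
theorem Pth.first {R : V → V → Prop} {u v : V} {l : List V} (h : Pth R u v l) :
    ∃ w, R u w := by
  obtain ⟨_, h2⟩ := h
  cases l with
  | nil => exact ⟨v, by simpa using h2⟩
  | cons a t => 
    simp only [List.cons_append, List.isChain_cons_cons] at h2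
    exact ⟨a, h2.1⟩

omit [DecidableEq V] in
theorem Pth.mem_of {R : V → V → Prop} {u v : V} {l : List V} {p : V → Prop} (h : Pth R u v l)
    (hR : ∀ a b, R a b → p a) : ∀ w ∈ l, p w := by
  intro w hw
  obtain ⟨s, t, rfl⟩ := List.append_of_mem hw
  obtain ⟨b, hb⟩ := h.split.2.first
  exact hR _ _ hb

theorem reachPath {R : V → V → Prop} {u v : V} (h : Relation.ReflTransGen R u v) :
    u = v ∨ ∃ l, Pth R u v l := by
  induction h with
  | refl => left; rfl
  | tail hab hbc ih =>
    rename_i b c
    by_cases huc : u = c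
    · left; exact huc
    right
    rcases ih with rfl | ⟨l, hl⟩
    · exact ⟨[], pth_nil hbc huc⟩
    · by_cases hcl : c ∈ l
      · obtain ⟨s, t, rfl⟩ := List.append_of_mem hcl
        exact ⟨s, hl.split.1⟩
      · by_cases hbc' : b = c
        · subst hbc'; exact ⟨l, hl⟩
        · refine ⟨l ++ b :: [], hl.join (pth_nil hbc hbc') ?_ huc (by simp)⟩
          intro z hz
          refine ⟨by simp, ?_⟩
          rintro rfl; exact hcl hz

omit [DecidableEq V] in
theorem first_in (p : V → Prop) (l : List V) :
    (∀ z ∈ l, ¬ p z) ∨ ∃ s w t, l = s ++ w :: t ∧ p w ∧ ∀ z ∈ s, ¬ p z := by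
  classical
  induction l with
  | nil => left; simp
  | cons a l ih =>
    by_cases ha : p a
    · right; exact ⟨[], a, l, rfl, ha, by simp⟩
    · rcases ih with h | ⟨s, w, t, h1, h2, h3⟩
      · left; intro z hz; rcases List.mem_cons.mp hz with rfl | hz
        · exact ha
        · exact h z hz
      · right
        refine ⟨a :: s, w, t, by rw [h1]; rfl, h2, ?_⟩
        intro z hz; rcases List.mem_cons.mp hz with rfl | hz
        · exact ha
        · exact h3 z hz

omit [DecidableEq V] in
theorem last_in (p : V → Prop) (l : List V) :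
    (∀ z ∈ l, ¬ p z) ∨ ∃ s w t, l = s ++ w :: t ∧ p w ∧ ∀ z ∈ t, ¬ p z := by
  rcases first_in p l.reverse with h | ⟨s, w, t, h1, h2, h3⟩
  · left; intro z hz; exact h z (by simpa using hz)
  · right
    refine ⟨t.reverse, w, s.reverse, ?_, h2, ?_⟩
    · have := congrArg List.reverse h1
      simpa using this
    · intro z hz; exact h3 z (by simpa using hz)

/-- Two different paths with the same ends contain two different interior-disjoint paths
with the same ends. -/
theorem theta {R : V → V → Prop} : ∀ (p : List V) (u v : V) (q : List V), Pth R u v p → Pth R u v q →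
    p ≠ q → ∃ u' v' a b, Pth R u' v' a ∧ Pth R u' v' b ∧ a ≠ b ∧ (∀ z ∈ a, z ∉ b) ∧
      a.length + b.length ≤ p.length + q.length := by
  intro p
  induction p with
  | nil =>
    intro u v q hp hq hne
    exact ⟨u, v, [], q, hp, hq, hne, by simp, le_refl _⟩
  | cons x p ih =>
    intro u v q hp hq hne
    cases q with
    | nil => exact ⟨u, v, x :: p, [], hp, hq, hne, by simp, le_refl _⟩
    | cons y q =>
      by_cases hxy : x = y
      · subst hxy
        have h1 : Pth R x v p := (Pth.split (s := []) hp).2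
        have h2 : Pth R x v q := (Pth.split (s := []) hq).2
        obtain ⟨u', v', a, b, ha, hb, hab, hd, hl⟩ := ih x v q h1 h2 (by
          rintro rfl; exact hne rfl)
        exact ⟨u', v', a, b, ha, hb, hab, hd, by simp; omega⟩
      · -- heads differ
        rcases first_in (fun z => z ∈ (y :: q) ++ [v]) ((x :: p) ++ [v]) with h | ⟨a, w, r, h1, h2, h3⟩
        · exact absurd (by simp) (h v (by simp))
        · obtain ⟨b, r', h4⟩ := List.append_of_mem h2
          have key : ∀ (l : List V), Pth R u v l → ∀ a w r, l ++ [v] = a ++ w :: r → Pth R u w a := by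
            intro l hl a w r he
            obtain ⟨k1, k2⟩ := hl
            rw [he] at k1 k2
            rw [List.isChain_cons_split] at k2
            refine ⟨k1.sublist (by simp), k2.1⟩
          have hlen : ∀ (l : List V), ∀ a w r, l ++ [v] = a ++ w :: r → a.length ≤ l.length := by
            intro l a w r he
            have := congrArg List.length he
            simp at this; omega
          refine ⟨u, w, a, b, key _ hp a w r h1, key _ hq b w r' h4, ?_, ?_, ?_⟩
          · rintro rfl
            cases a with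
            | nil =>
              simp only [List.nil_append, List.cons_append, List.cons.injEq] at h1 h4
              exact hxy (h1.1.trans h4.1.symm)
            | cons z a =>
              apply h3 z (by simp)
              rw [h4]; simp
          · intro z hz hzb
            apply h3 z hz
            rw [h4]; simp [hzb]
          · have := hlen _ _ _ _ h1
            have := hlen _ _ _ _ h4
            omega


/-- Menger's theorem for two paths, in relational form. -/
theorem menger {R : V → V → Prop} {y : V}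
    (H : ∀ z, z ≠ y → ∀ v, v ≠ z → Relation.ReflTransGen R y v →
      Relation.ReflTransGen (fun a b => R a b ∧ a ≠ z ∧ b ≠ z) y v) :
    ∀ v, Relation.ReflTransGen R y v → v ≠ y →
      R y v ∨ ∃ l₁ l₂, Pth R y v l₁ ∧ Pth R y v l₂ ∧ (∀ z ∈ l₁, z ∉ l₂) ∧ l₁ ≠ [] ∧ l₂ ≠ [] := by
  intro v hv
  induction hv with
  | refl => intro h; exact absurd rfl h
  | tail hyv hvw ih =>
    rename_i v w
    intro hwy
    by_cases hvy : v = y
    · subst hvy; left; exact hvw
    by_cases hwv : w = v
    · subst hwv; exact ih hwy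
    have hreach := H v hvy w hwv (hyv.tail hvw)
    rcases reachPath hreach with h | ⟨t, ht⟩
    · exact absurd h.symm hwy
    have htv : v ∉ t := by
      intro h
      have := ht.mem_of (p := fun a => a ≠ v) (fun a b hab => hab.2.1) v h
      exact this rfl
    have ht' : Pth R y w t := ht.mono (fun a b h => h.1)
    by_cases htn : t = []
    · subst htn; left; exact ht'.rel
    rcases ih hvy with hyv' | ⟨l₁, l₂, h1, h2, hd, hn1, hn2⟩
    · right
      refine ⟨[] ++ v :: [], t, (pth_nil hyv' (Ne.symm hvy)).join (pth_nil hvw (Ne.symm hwv))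
        (by simp) (Ne.symm hwy) (by simp), ht', ?_, by simp, htn⟩
      intro z hz
      simp at hz; subst hz; exact htv
    -- generic extension of a path to v by the arc v w
    have ext : ∀ l, Pth R y v l → w ∉ l → Pth R y w (l ++ v :: []) := by
      intro l hl hwl
      refine hl.join (pth_nil hvw (Ne.symm hwv)) ?_ (Ne.symm hwy) (by simp)
      intro z hz
      refine ⟨by simp, ?_⟩
      rintro rfl; exact hwl hz
    -- the case w on one of the paths
    have caseOn : ∀ l₁ l₂, Pth R y v l₁ → Pth R y v l₂ → (∀ z ∈ l₁, z ∉ l₂) → w ∈ l₁ →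
        R y w ∨ ∃ l₁ l₂, Pth R y w l₁ ∧ Pth R y w l₂ ∧ (∀ z ∈ l₁, z ∉ l₂) ∧ l₁ ≠ [] ∧ l₂ ≠ [] := by
      intro l₁ l₂ h1 h2 hd hw
      obtain ⟨s, r, rfl⟩ := List.append_of_mem hw
      have hs := h1.split.1
      by_cases hsn : s = []
      · subst hsn; left; exact hs.rel
      right
      refine ⟨s, l₂ ++ v :: [], hs, ext _ h2 (hd w hw), ?_, hsn, by simp⟩
      intro z hz hz2
      simp only [List.mem_append, List.mem_cons, List.not_mem_nil, or_false] at hz2
      rcases hz2 with hz2 | rfl
      · exact hd z (by simp [hz]) hz2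
      · exact h1.not_mem_right (by simp [hz])
    by_cases hw1 : w ∈ l₁
    · exact caseOn l₁ l₂ h1 h2 hd hw1
    by_cases hw2 : w ∈ l₂
    · exact caseOn l₂ l₁ h2 h1 (fun z hz hz' => hd z hz' hz) hw2
    -- the case of a last vertex on one of the paths
    have caseZ : ∀ l₁ l₂, Pth R y v l₁ → Pth R y v l₂ → (∀ z ∈ l₁, z ∉ l₂) → w ∉ l₁ → w ∉ l₂ →
        ∀ s z r, t = s ++ z :: r → z ∈ l₁ → (∀ c ∈ r, c ∉ l₁ ∧ c ∉ l₂) →
        ∃ l₁ l₂, Pth R y w l₁ ∧ Pth R y w l₂ ∧ (∀ z ∈ l₁, z ∉ l₂) ∧ l₁ ≠ [] ∧ l₂ ≠ [] := by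
      intro l₁ l₂ h1 h2 hd hw1 hw2 s z r hts hz hr
      subst hts
      obtain ⟨s1, r1, rfl⟩ := List.append_of_mem hz
      have hs1 := h1.split.1
      have hzr := ht'.split.2
      refine ⟨s1 ++ z :: r, l₂ ++ v :: [], hs1.join hzr ?_ (Ne.symm hwy) ?_,
        ext _ h2 hw2, ?_, by simp, by simp⟩
      · intro c hc
        refine ⟨fun hcr => (hr c hcr).1 (by simp [hc]), ?_⟩
        rintro rfl; exact hw1 (by simp [hc])
      · intro hyr; exact ht'.not_mem_left (by simp [hyr])
      · intro c hc hc2
        simp only [List.mem_append, List.mem_cons, List.not_mem_nil, or_false] at hc hc2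
        rcases hc2 with hc2 | rfl
        · rcases hc with hc | rfl | hc
          · exact hd c (by simp [hc]) hc2
          · exact hd _ (by simp) hc2
          · exact (hr c hc).2 hc2
        · rcases hc with hc | rfl | hc
          · exact h1.not_mem_right (by simp [hc])
          · exact h1.not_mem_right (by simp)
          · exact htv (by simp [hc])
    rcases last_in (fun c => c ∈ l₁ ∨ c ∈ l₂) t with h | ⟨s, z, r, hts, hz, hr⟩
    · right
      refine ⟨t, l₁ ++ v :: [], ht', ext _ h1 hw1, ?_, htn, by simp⟩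
      intro c hc hc2
      simp only [List.mem_append, List.mem_cons, List.not_mem_nil, or_false] at hc2
      rcases hc2 with hc2 | rfl
      · exact h c hc (Or.inl hc2)
      · exact htv hc
    · right
      rcases hz with hz | hz
      · exact caseZ l₁ l₂ h1 h2 hd hw1 hw2 s z r hts hz
          (fun c hc => ⟨fun h => hr c hc (Or.inl h), fun h => hr c hc (Or.inr h)⟩)
      · exact caseZ l₂ l₁ h2 h1 (fun z hz hz' => hd z hz' hz) hw2 hw1 s z r hts hz
          (fun c hc => ⟨fun h => hr c hc (Or.inr h), fun h => hr c hc (Or.inl h)⟩)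

omit [DecidableEq V] in
/-- a second path besides the arc -/
theorem second {R : V → V → Prop} {y w x : V} {p q : List V} (hp : Pth R y w p) (hq : Pth R w x q)
    (hpx : x ∉ p) (hqy : y ∉ q) (hxy : y ≠ x) : ∃ l, Pth R y x l ∧ l ≠ [] := by
  rcases first_in (fun z => z ∈ w :: q) (p ++ [w]) with h | ⟨a, c, r, h1, h2, h3⟩
  · exact absurd (by simp) (h w (by simp))
  · have hyw : y ≠ w := hp.ne
    have hwx : w ≠ x := hq.ne
    have hya : Pth R y c a := by
      obtain ⟨k1, k2⟩ := hp
      rw [h1] at k1 k2
      rw [List.isChain_cons_split] at k2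
      exact ⟨k1.sublist (by simp), k2.1⟩
    have hax : x ∉ a := by
      intro h
      have : x ∈ p ++ [w] := by rw [h1]; simp [h]
      simp only [List.mem_append, List.mem_cons, List.not_mem_nil, or_false] at this
      rcases this with h | h
      · exact hpx h
      · exact hwx h.symm
    obtain ⟨b, t, h4⟩ := List.append_of_mem h2
    have hct : Pth R c x t := by
      cases b with
      | nil =>
        simp only [List.nil_append, List.cons.injEq] at h4
        obtain ⟨rfl, rfl⟩ := h4
        exact hq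
      | cons b0 b =>
        simp only [List.cons_append, List.cons.injEq] at h4
        obtain ⟨_, h5⟩ := h4
        rw [h5] at hq
        exact hq.split.2
    have htq : ∀ z ∈ t, z ∈ w :: q := by
      intro z hz; rw [h4]; simp [hz]
    refine ⟨a ++ c :: t, hya.join hct ?_ hxy ?_, by simp⟩
    · intro z hz
      refine ⟨fun hzt => h3 z hz (htq z hzt), ?_⟩
      rintro rfl; exact hax hz
    · intro hyt
      rcases List.mem_cons.mp (htq y hyt) with h | h
      · exact hyw h
      · exact hqy h


/-- the strong connectivity hypothesis, literally as posed -/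
def KStrong (K : ℕ) {V : Type} [Fintype V] (G : Digraph V) : Prop :=
  K < Fintype.card V ∧
    ∀ S : Finset V, S.card < K → ∀ u v : V, u ∉ S → v ∉ S →
      ∃ l : List V, l.head? = some u ∧ l.getLast? = some v ∧ (∀ w ∈ l, w ∉ S) ∧
        ∀ (i : ℕ) (a b : V), l[i]? = some a → l[i+1]? = some b → G.Adj a b

/-- `P` is a dipath from `x` to `y` -/
def IsDipath {V : Type} (G : Digraph V) (x y : V) (P : List V) : Prop :=
  P.Nodup ∧ P.head? = some x ∧ P.getLast? = some y ∧
    ∀ (i : ℕ) (a b : V), P[i]? = some a → P[i+1]? = some b → G.Adj a b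

def TwoTwo {V : Type} (G : Digraph V) : Prop :=
  ∃ x y : V, x ≠ y ∧ ∃ P₁ P₂ Q₁ Q₂ : List V,
    IsDipath G x y P₁ ∧ IsDipath G x y P₂ ∧ IsDipath G y x Q₁ ∧ IsDipath G y x Q₂ ∧
    P₁ ≠ P₂ ∧ Q₁ ≠ Q₂ ∧
    (∀ w : V, w ∈ P₁ → w ∈ P₂ → w = x ∨ w = y) ∧
    (∀ w : V, w ∈ Q₁ → w ∈ Q₂ → w = x ∨ w = y) ∧
    (∀ w : V, w ∈ P₁ → w ∈ Q₁ → w = x ∨ w = y) ∧
    (∀ w : V, w ∈ P₁ → w ∈ Q₂ → w = x ∨ w = y) ∧
    (∀ w : V, w ∈ P₂ → w ∈ Q₁ → w = x ∨ w = y) ∧
    (∀ w : V, w ∈ P₂ → w ∈ Q₂ → w = x ∨ w = y)

section
variable {V : Type} [Fintype V]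

omit [Fintype V] in
theorem Pth.dipath {G : Digraph V} {u v : V} {l : List V} (h : Pth G.Adj u v l) :
    IsDipath G u v (u :: (l ++ [v])) := by
  obtain ⟨h1, h2⟩ := h
  refine ⟨h1, rfl, by simp [List.getLast?_cons], ?_⟩
  intro i a b ha hb
  rw [List.isChain_iff_getElem] at h2
  obtain ⟨h3, h4⟩ := List.getElem?_eq_some_iff.mp ha
  obtain ⟨h5, h6⟩ := List.getElem?_eq_some_iff.mp hb
  rw [← h4, ← h6]
  exact h2 i h5

theorem conn {K : ℕ} {G : Digraph V} (hG : KStrong K G) (S : Finset V) (hS : S.card < K) {u v : V}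
    (hu : u ∉ S) (hv : v ∉ S) :
    Relation.ReflTransGen (fun a b => G.Adj a b ∧ a ∉ S ∧ b ∉ S) u v := by
  obtain ⟨l, h1, h2, h3, h4⟩ := hG.2 S hS u v hu hv
  have key : ∀ (i : ℕ) (a : V), l[i]? = some a →
      Relation.ReflTransGen (fun a b => G.Adj a b ∧ a ∉ S ∧ b ∉ S) u a := by
    intro i
    induction i with
    | zero =>
      intro a ha
      rw [← List.head?_eq_getElem?, h1] at ha
      simp only [Option.some.injEq] at ha
      rw [ha]
    | succ i ih =>
      intro a ha
      obtain ⟨h5, h6⟩ := List.getElem?_eq_some_iff.mp ha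
      have hi : i < l.length := by omega
      have hb : l[i]? = some l[i] := List.getElem?_eq_getElem hi
      refine (ih _ hb).tail ⟨h4 i _ _ hb ha, h3 _ (List.getElem_mem hi), ?_⟩
      exact h3 _ (List.mem_of_getElem? ha)
  rw [List.getLast?_eq_getElem?] at h2
  exact key _ _ h2

theorem theta_twoTwo [DecidableEq V] {K : ℕ} {G : Digraph V} (hG : KStrong K G) {x y : V} {a b : List V}
    (ha : Pth G.Adj x y a) (hb : Pth G.Adj x y b) (hab : a ≠ b) (hd : ∀ z ∈ a, z ∉ b)
    (hl : a.length + b.length + 2 ≤ K) : TwoTwo G := by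
  obtain ⟨S, hS⟩ : ∃ S : Finset V, S = (a ++ b).toFinset := ⟨_, rfl⟩
  have hSmem : ∀ z, z ∈ S ↔ z ∈ a ∨ z ∈ b := by intro z; rw [hS]; simp
  have hScard : S.card + 2 ≤ K := by
    have : S.card ≤ (a ++ b).length := by rw [hS]; exact List.toFinset_card_le _
    rw [List.length_append] at this
    omega
  have hxy : x ≠ y := ha.ne
  have hyS : y ∉ S := by
    rw [hSmem]; rintro (h | h)
    · exact ha.not_mem_right h
    · exact hb.not_mem_right h
  have hxS : x ∉ S := by
    rw [hSmem]; rintro (h | h)
    · exact ha.not_mem_left h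
    · exact hb.not_mem_left h
  obtain ⟨R, hR⟩ : ∃ R : V → V → Prop, R = fun p q => G.Adj p q ∧ p ∉ S ∧ q ∉ S := ⟨_, rfl⟩
  have hRnot : ∀ v, Relation.ReflTransGen R y v → v ∉ S := by
    intro v hv
    cases hv with
    | refl => exact hyS
    | tail _ h => rw [hR] at h; exact h.2.2
  have hins : ∀ z, (insert z S).card < K := by
    intro z
    have := Finset.card_insert_le z S
    omega
  have H : ∀ z, z ≠ y → ∀ v, v ≠ z → Relation.ReflTransGen R y v →
      Relation.ReflTransGen (fun a b => R a b ∧ a ≠ z ∧ b ≠ z) y v := by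
    intro z hz v hv hyv
    have h1 := conn hG (insert z S) (hins z) (u := y) (v := v)
      (by simp [Ne.symm hz, hyS]) (by simp [hv, hRnot v hyv])
    refine Relation.ReflTransGen.mono ?_ _ _ h1
    intro p q hpq
    simp only [Finset.mem_insert, not_or] at hpq
    rw [hR]
    exact ⟨⟨hpq.1, hpq.2.1.2, hpq.2.2.2⟩, hpq.2.1.1, hpq.2.2.1⟩
  have hyx : Relation.ReflTransGen R y x := by
    rw [hR]; exact conn hG S (by omega) hyS hxS
  have hRmono : ∀ p q, R p q → G.Adj p q := by
    intro p q h; rw [hR] at h; exact h.1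
  have hRS : ∀ p q, R p q → p ∉ S := by
    intro p q h; rw [hR] at h; exact h.2.1
  -- two paths back
  have hback : ∃ l₁ l₂, Pth R y x l₁ ∧ Pth R y x l₂ ∧ (∀ z ∈ l₁, z ∉ l₂) ∧ l₁ ≠ l₂ := by
    rcases menger H x hyx hxy with h | ⟨l₁, l₂, h1, h2, h3, h4, h5⟩
    · -- find a third vertex
      have hcard : (insert x (insert y S)).card < Fintype.card V := by
        have h1 := Finset.card_insert_le x (insert y S)
        have h2 := Finset.card_insert_le y S
        have h3 := hG.1
        omega
      obtain ⟨w, hw⟩ : ∃ w, w ∉ insert x (insert y S) := by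
        by_contra hcon
        push Not at hcon
        have : insert x (insert y S) = Finset.univ := Finset.eq_univ_iff_forall.mpr hcon
        rw [this, Finset.card_univ] at hcard
        exact lt_irrefl _ hcard
      simp only [Finset.mem_insert, not_or] at hw
      obtain ⟨hwx, hwy, hwS⟩ := hw
      have r1 := conn hG (insert x S) (hins x) (u := y) (v := w)
        (by simp [Ne.symm hxy, hyS]) (by simp [hwx, hwS])
      have r2 := conn hG (insert y S) (hins y) (u := w) (v := x)
        (by simp [hwy, hwS]) (by simp [hxy, hxS])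
      rcases reachPath r1 with e | ⟨p, hp⟩
      · exact absurd e.symm hwy
      rcases reachPath r2 with e | ⟨q, hq⟩
      · exact absurd e hwx
      have hxp : x ∉ p := by
        intro hx
        have := hp.mem_of (p := fun a => a ∉ insert x S) (fun a b h => h.2.1) x hx
        simp at this
      have hyq : y ∉ q := by
        intro hy
        have := hq.mem_of (p := fun a => a ∉ insert y S) (fun a b h => h.2.1) y hy
        simp at this
      have hp' : Pth R y w p := hp.mono (by
        intro a b h
        simp only [Finset.mem_insert, not_or] at h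
        rw [hR]; exact ⟨h.1, h.2.1.2, h.2.2.2⟩)
      have hq' : Pth R w x q := hq.mono (by
        intro a b h
        simp only [Finset.mem_insert, not_or] at h
        rw [hR]; exact ⟨h.1, h.2.1.2, h.2.2.2⟩)
      obtain ⟨l, hl1, hl2⟩ := second hp' hq' hxp hyq (Ne.symm hxy)
      exact ⟨[], l, pth_nil h (Ne.symm hxy), hl1, by simp, Ne.symm hl2⟩
    · refine ⟨l₁, l₂, h1, h2, h3, ?_⟩
      rintro rfl
      cases l₁ with
      | nil => exact h4 rfl
      | cons c l => exact h3 c (by simp) (by simp)
  obtain ⟨l₁, l₂, h1, h2, h3, h4⟩ := hback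
  have hS1 : ∀ z ∈ l₁, z ∉ S := h1.mem_of hRS
  have hS2 : ∀ z ∈ l₂, z ∉ S := h2.mem_of hRS
  have mem : ∀ (u v z : V) (l : List V), z ∈ u :: (l ++ [v]) ↔ z = u ∨ z ∈ l ∨ z = v := by
    intro u v z l; simp
  refine ⟨x, y, hxy, _, _, _, _, ha.dipath, hb.dipath, (h1.mono hRmono).dipath,
    (h2.mono hRmono).dipath, ?_, ?_, ?_, ?_, ?_, ?_, ?_, ?_⟩
  · intro h; apply hab; simpa using h
  · intro h; apply h4; simpa using h
  · intro w hw hw'; rw [mem] at hw hw'
    rcases hw with h | h | h
    · exact Or.inl h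
    · rcases hw' with h' | h' | h'
      · exact Or.inl h'
      · exact absurd h' (hd w h)
      · exact Or.inr h'
    · exact Or.inr h
  · intro w hw hw'; rw [mem] at hw hw'
    rcases hw with h | h | h
    · exact Or.inr h
    · rcases hw' with h' | h' | h'
      · exact Or.inr h'
      · exact absurd h' (h3 w h)
      · exact Or.inl h'
    · exact Or.inl h
  all_goals
    intro w hw hw'
    rw [mem] at hw hw'
    rcases hw with h | h | h
    · exact Or.inl h
    · rcases hw' with h' | h' | h'
      · exact Or.inr h'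
      · exfalso
        first
          | exact hS1 w h' ((hSmem w).mpr (Or.inl h))
          | exact hS1 w h' ((hSmem w).mpr (Or.inr h))
          | exact hS2 w h' ((hSmem w).mpr (Or.inl h))
          | exact hS2 w h' ((hSmem w).mpr (Or.inr h))
      · exact Or.inl h'
    · exact Or.inr h


theorem uniq [DecidableEq V] {K : ℕ} {G : Digraph V} (hG : KStrong K G) (hno : ¬ TwoTwo G) {x z : V}
    {p q : List V} (hp : Pth G.Adj x z p) (hq : Pth G.Adj x z q)
    (hl : p.length + q.length + 2 ≤ K) : p = q := by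
  by_contra hne
  obtain ⟨u, v, a, b, ha, hb, hab, hd, hl'⟩ := theta p x z q hp hq hne
  exact hno (theta_twoTwo hG ha hb hab hd (by omega))

open scoped Classical in
theorem outdeg {K : ℕ} {G : Digraph V} (hG : KStrong K G) (v : V) :
    K ≤ (Finset.univ.filter (fun w => G.Adj v w ∧ w ≠ v)).card := by
  by_contra hcon
  push Not at hcon
  obtain ⟨S, hS⟩ : ∃ S : Finset V, S = Finset.univ.filter (fun w => G.Adj v w ∧ w ≠ v) := ⟨_, rfl⟩
  rw [← hS] at hcon
  have hvS : v ∉ S := by rw [hS]; simp
  have hcard : (insert v S).card < Fintype.card V := by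
    have h1 := Finset.card_insert_le v S
    have h3 := hG.1
    omega
  obtain ⟨w, hw⟩ : ∃ w, w ∉ insert v S := by
    by_contra hcon'
    push Not at hcon'
    have : insert v S = Finset.univ := Finset.eq_univ_iff_forall.mpr hcon'
    rw [this, Finset.card_univ] at hcard
    exact lt_irrefl _ hcard
  simp only [Finset.mem_insert, not_or] at hw
  have r := conn hG S hcon hvS hw.2
  rcases reachPath r with e | ⟨p, hp⟩
  · exact hw.1 e.symm
  · -- first step
    have : ∃ c, (G.Adj v c ∧ v ∉ S ∧ c ∉ S) ∧ c ≠ v := by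
      cases p with
      | nil => exact ⟨w, hp.rel, hw.1⟩
      | cons c t =>
        have h1 := (Pth.split (s := []) hp).1
        exact ⟨c, h1.rel, (h1.ne).symm⟩
    obtain ⟨c, ⟨h1, _, h2⟩, h3⟩ := this
    apply h2
    rw [hS]; simp [h1, h3]

open scoped Classical in
/-- endpoints (different from x) of paths with exactly `i` interior vertices starting at `x` -/
noncomputable def level (G : Digraph V) (x : V) (i : ℕ) : Finset V :=
  Finset.univ.filter (fun w => ∃ l, Pth G.Adj x w l ∧ l.length = i)

theorem mem_level {G : Digraph V} {x w : V} {i : ℕ} :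
    w ∈ level G x i ↔ ∃ l, Pth G.Adj x w l ∧ l.length = i := by
  unfold level; simp

open scoped Classical in
/-- few out-neighbours of the end of a short path lie on the path -/
theorem few_on_path {K : ℕ} {G : Digraph V} (hG : KStrong K G) (hno : ¬ TwoTwo G) {x v : V}
    {l : List V} (hl : Pth G.Adj x v l) (hlen : l.length + 2 ≤ K) :
    K - 1 ≤ (Finset.univ.filter (fun w => G.Adj v w ∧ w ≠ v ∧ w ∉ x :: l)).card := by
  -- at most one out-neighbour on the path
  have hord : ∀ (s r1 r2 : List V) (w1 w2 : V), x :: l = s ++ w1 :: (r1 ++ w2 :: r2) →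
      G.Adj v w1 → G.Adj v w2 → False := by
    intro s r1 r2 w1 w2 he ha1 ha2
    obtain ⟨k1, k2⟩ := hl
    have e2 : x :: (l ++ [v]) = s ++ w1 :: (r1 ++ w2 :: (r2 ++ [v])) := by
      have : x :: (l ++ [v]) = (x :: l) ++ [v] := rfl
      rw [this, he]; simp
    rw [e2] at k1 k2
    have hmid : Pth G.Adj w1 w2 r1 := by
      refine ⟨k1.sublist ?_, ?_⟩
      · refine List.Sublist.trans ?_ (List.sublist_append_right s _)
        simp
      · rw [List.isChain_split] at k2
        have k3 := k2.2
        rw [List.isChain_cons_split] at k3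
        exact k3.1
    have hv1 : v ≠ w1 := by
      rintro rfl
      have := k1.sublist (List.sublist_append_right s _)
      simp at this
    have hv2 : v ≠ w2 := by
      rintro rfl
      have := k1.sublist (List.sublist_append_right s _)
      simp [List.nodup_append] at this
    have hvr : v ∉ r1 := by
      intro hv
      have := k1.sublist (List.sublist_append_right s _)
      simp only [List.nodup_cons, List.nodup_append, List.mem_append, List.mem_cons] at this
      exact this.2.2.2 v hv v (by simp) rfl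
    have hlong : Pth G.Adj v w2 ([] ++ w1 :: r1) :=
      (pth_nil ha1 hv1).join hmid (by simp) hv2 hvr
    have := uniq hG hno hlong (pth_nil ha2 hv2) (by
      have := congrArg List.length he
      simp at this ⊢
      omega)
    simp at this
  obtain ⟨A, hA⟩ : ∃ A : Finset V, A = Finset.univ.filter (fun w => G.Adj v w ∧ w ≠ v) := ⟨_, rfl⟩
  obtain ⟨B, hB⟩ : ∃ B : Finset V, B = Finset.univ.filter (fun w => G.Adj v w ∧ w ∈ x :: l) :=
    ⟨_, rfl⟩
  have hBcard : B.card ≤ 1 := by
    rw [Finset.card_le_one]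
    intro a ha b hb
    rw [hB, Finset.mem_filter] at ha hb
    by_contra hab
    obtain ⟨s, t, hst⟩ := List.append_of_mem ha.2.2
    have hb2 := hb.2.2
    rw [hst, List.mem_append, List.mem_cons] at hb2
    rcases hb2 with h | h | h
    · obtain ⟨s1, s2, rfl⟩ := List.append_of_mem h
      exact hord s1 s2 t b a (by rw [hst]; simp) hb.2.1 ha.2.1
    · exact hab h.symm
    · obtain ⟨t1, t2, rfl⟩ := List.append_of_mem h
      exact hord s t1 t2 a b hst ha.2.1 hb.2.1
  have hsub : A ⊆ (Finset.univ.filter (fun w => G.Adj v w ∧ w ≠ v ∧ w ∉ x :: l)) ∪ B := by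
    intro w hw
    rw [hA, Finset.mem_filter] at hw
    rw [Finset.mem_union, hB, Finset.mem_filter, Finset.mem_filter]
    by_cases h : w ∈ x :: l
    · right; exact ⟨Finset.mem_univ _, hw.2.1, h⟩
    · left; exact ⟨Finset.mem_univ _, hw.2.1, hw.2.2, h⟩
  have h1 := outdeg hG v
  rw [← hA] at h1
  have h2 := Finset.card_le_card hsub
  have h3 := Finset.card_union_le
    (Finset.univ.filter (fun w => G.Adj v w ∧ w ≠ v ∧ w ∉ x :: l)) B
  omega

open scoped Classical in
theorem level_zero {K : ℕ} {G : Digraph V} (hG : KStrong K G) (x : V) :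
    K ≤ (level G x 0).card := by
  refine le_trans (outdeg hG x) (Finset.card_le_card ?_)
  intro w hw
  rw [Finset.mem_filter] at hw
  rw [mem_level]
  exact ⟨[], pth_nil hw.2.1 (Ne.symm hw.2.2), rfl⟩

open scoped Classical in
theorem level_succ {K : ℕ} {G : Digraph V} (hG : KStrong K G) (hno : ¬ TwoTwo G) (x : V) (i : ℕ)
    (hi : 2 * (i + 2) ≤ K) : (K - 1) * (level G x i).card ≤ (level G x (i + 1)).card := by
  have hch : ∀ v, ∃ l : List V, v ∈ level G x i → (Pth G.Adj x v l ∧ l.length = i) := by
    intro v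
    by_cases hv : v ∈ level G x i
    · obtain ⟨l, hl⟩ := mem_level.mp hv
      exact ⟨l, fun _ => hl⟩
    · exact ⟨[], fun h => absurd h hv⟩
  choose L hL using hch
  obtain ⟨N, hN⟩ : ∃ N : V → Finset V, ∀ v, N v =
      Finset.univ.filter (fun w => G.Adj v w ∧ w ≠ v ∧ w ∉ x :: L v) := ⟨_, fun _ => rfl⟩
  have hext : ∀ v ∈ level G x i, ∀ w ∈ N v, Pth G.Adj x w (L v ++ v :: []) := by
    intro v hv w hw
    obtain ⟨h1, h2⟩ := hL v hv
    rw [hN, Finset.mem_filter] at hw
    obtain ⟨_, h3, h4, h5⟩ := hw
    simp only [List.mem_cons, not_or] at h5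
    refine h1.join (pth_nil h3 (Ne.symm h4)) ?_ (Ne.symm h5.1) (by simp)
    intro z hz
    refine ⟨by simp, ?_⟩
    rintro rfl; exact h5.2 hz
  have hdisj : ∀ v ∈ level G x i, ∀ v' ∈ level G x i, v ≠ v' → Disjoint (N v) (N v') := by
    intro v hv v' hv' hne
    rw [Finset.disjoint_left]
    intro w hw hw'
    have e := uniq hG hno (hext v hv w hw) (hext v' hv' w hw') (by
      have := (hL v hv).2
      have := (hL v' hv').2
      simp; omega)
    have := (List.append_inj_right' e rfl)
    simp at this
    exact hne this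
  have hsub : (level G x i).biUnion N ⊆ level G x (i + 1) := by
    intro w hw
    rw [Finset.mem_biUnion] at hw
    obtain ⟨v, hv, hw⟩ := hw
    rw [mem_level]
    exact ⟨_, hext v hv w hw, by simp [(hL v hv).2]⟩
  refine le_trans ?_ (Finset.card_le_card hsub)
  rw [Finset.card_biUnion hdisj, mul_comm, ← smul_eq_mul, ← Finset.sum_const]
  refine Finset.sum_le_sum (fun v hv => ?_)
  rw [hN]
  obtain ⟨h1, h2⟩ := hL v hv
  exact few_on_path hG hno h1 (by omega)

open scoped Classical in
theorem level_card {K : ℕ} {G : Digraph V} (hG : KStrong K G) (hno : ¬ TwoTwo G) (x : V) :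
    ∀ i : ℕ, 2 * (i + 1) ≤ K → K * (K - 1) ^ i ≤ (level G x i).card := by
  intro i
  induction i with
  | zero => intro _; simpa using level_zero hG x
  | succ i ih =>
    intro h
    have h1 := ih (by omega)
    have h2 := level_succ hG hno x i (by omega)
    calc K * (K - 1) ^ (i + 1) = (K - 1) * (K * (K - 1) ^ i) := by ring
      _ ≤ (K - 1) * (level G x i).card := Nat.mul_le_mul_left _ h1
      _ ≤ _ := h2

open scoped Classical in
theorem moore {K : ℕ} {G : Digraph V} (hG : KStrong K G) (hno : ¬ TwoTwo G) :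
    1 + K * ∑ i ∈ Finset.range (K / 2), (K - 1) ^ i ≤ Fintype.card V := by
  obtain ⟨x⟩ : Nonempty V := by
    rw [← Fintype.card_pos_iff]; have := hG.1; omega
  have hd : ∀ i ∈ Finset.range (K / 2), ∀ j ∈ Finset.range (K / 2), i ≠ j →
      Disjoint (level G x i) (level G x j) := by
    intro i hi j hj hij
    rw [Finset.mem_range] at hi hj
    rw [Finset.disjoint_left]
    intro w hw hw'
    obtain ⟨l, h1, h2⟩ := mem_level.mp hw
    obtain ⟨l', h3, h4⟩ := mem_level.mp hw'
    have e := uniq hG hno h1 h3 (by omega)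
    rw [e] at h2
    omega
  have hx : x ∉ (Finset.range (K / 2)).biUnion (level G x) := by
    rw [Finset.mem_biUnion]
    rintro ⟨i, _, hi⟩
    obtain ⟨l, h1, _⟩ := mem_level.mp hi
    exact h1.ne rfl
  calc 1 + K * ∑ i ∈ Finset.range (K / 2), (K - 1) ^ i
      = 1 + ∑ i ∈ Finset.range (K / 2), K * (K - 1) ^ i := by rw [Finset.mul_sum]
    _ ≤ 1 + ∑ i ∈ Finset.range (K / 2), (level G x i).card := by
        refine Nat.add_le_add_left (Finset.sum_le_sum (fun i hi => ?_)) 1
        rw [Finset.mem_range] at hi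
        exact level_card hG hno x i (by omega)
    _ = 1 + ((Finset.range (K / 2)).biUnion (level G x)).card := by
        rw [Finset.card_biUnion hd]
    _ = (insert x ((Finset.range (K / 2)).biUnion (level G x))).card := by
        rw [Finset.card_insert_of_notMem hx]; ring
    _ ≤ Fintype.card V := Finset.card_le_univ _

end

/-- Every `K`-strongly vertex-connected digraph on fewer than
`1 + K (1 + (K-1) + ... + (K-1)^(⌊K/2⌋ - 1))` vertices has the required four paths. -/
theorem result (K : ℕ) (V : Type) [Fintype V] (G : Digraph V) (hG : KStrong K G)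
    (hcard : Fintype.card V < 1 + K * ∑ i ∈ Finset.range (K / 2), (K - 1) ^ i) : TwoTwo G := by
  by_contra hno
  exact absurd (moore hG hno) (not_le.mpr hcard)

end Pool.Agent.Results.MP_71954f_co.MooreBound
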